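import Pool.Agent.W_MP_2ea9c5_h26.GMain

/-!
MP_2ea9c5_co, Q1: the leading asymptotics of `MFD_2(Δ)`, and a lower bound for every `t`.

`Δ` random permutations of `[n]` between the minimal and the maximal elements of a poset of height two.
With high probability every pair `(S, T)` of a set of maximal and a set of minimal elements without
comparabilities between them satisfies `|T| ≤ n (exp (-y) + o(1) / y)`, `y = |S| Δ / n`, when
`|S| ≤ 3 n log Δ / Δ`, the same with the roles exchanged, and one of the two always has this size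
(factorial moments of the number of common non-neighbours). The `t - 1` cuts of a monotone map are
such pairs; optimising over the sizes bounds the number of pairs that a monotone map separates in
the reversed direction by `(m_j + m_{t-1-j} + o(1)) n ^ 2 / Δ`.
-/

namespace Pool.Agent.Results.MP_2ea9c5_co.GlobalAsymptotics

open Pool.Agent.W_MP_2ea9c5_h26 Filter Topology

/-- `liminf MFD_t(Δ) / Δ ≥ 1 / (m_⌊(t-1)/2⌋ + m_⌈(t-1)/2⌉)` for every `t ≥ 2`, where `m_0 = 0`,
`m_{k+1} = exp (m_k - 1)`; and `MFD_2(Δ) / Δ → e`. -/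
theorem result :
    (∀ t : ℕ, 2 ≤ t → ∀ ε : ℝ, 0 < ε → ∃ Δ₀ : ℕ, ∀ Δ : ℕ, Δ₀ ≤ Δ →
      1 / (MM ((t - 1) / 2) + MM ((t - 1) - (t - 1) / 2)) - ε ≤ MFD t Δ / Δ) ∧
    Tendsto (fun Δ : ℕ => MFD 2 Δ / Δ) atTop (𝓝 (Real.exp 1)) := by
  refine ⟨fun t ht ε hε => ?_, tendsto_MFD_two⟩
  obtain ⟨k, rfl⟩ : ∃ k, t = k + 1 := ⟨t - 1, by omega⟩
  exact eventually_atTop.1 (lower_ev (k := k) (by omega) hε)

end Pool.Agent.Results.MP_2ea9c5_co.GlobalAsymptotics
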