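import Pool.Agent.W_MP_2ea9c5_h26.GMain

/-!
MP_2ea9c5_co, Q1: bounds for `MFD_t(Δ)` for all `t` and `Δ`, sharp to leading order as `t, Δ → ∞`.

Upper bound: nested random down-sets. A random set `R` of elements, each with probability
`p`, gives the value `0` to the down-set of `R`; the other elements get one plus the value of the
scheme with one cut less; `p` is optimised. Lower bound: the standard examples.
-/

namespace Pool.Agent.Results.MP_2ea9c5_co.GlobalBounds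

open Pool.Agent.W_MP_2ea9c5_h26

/-- `Δ + 1 ≤ MFD_t(Δ) ≤ (Δ + 2) / m_{t-1}` for all `t ≥ 2` and `Δ`, where `m_0 = 0`,
`m_{k+1} = exp (m_k - 1)`; consequently `MFD_t(Δ) / Δ → 1` as `t, Δ → ∞`. -/
theorem result :
    (∀ t : ℕ, 2 ≤ t → ∀ Δ : ℕ, (Δ : ℝ) + 1 ≤ MFD t Δ ∧ MFD t Δ ≤ (Δ + 2) / MM (t - 1)) ∧
    (∀ ε : ℝ, 0 < ε → ∃ N : ℕ, ∀ t Δ : ℕ, N ≤ t → N ≤ Δ → |MFD t Δ / Δ - 1| ≤ ε) := by
  refine ⟨fun t ht Δ => ?_, fun ε hε => joint hε⟩
  obtain ⟨k, rfl⟩ : ∃ k, t = k + 1 := ⟨t - 1, by omega⟩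
  exact ⟨MFD_std ht Δ, MFD_le (by omega) Δ⟩

end Pool.Agent.Results.MP_2ea9c5_co.GlobalBounds
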