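import Pool.Agent.W_MP_2ea9c5_h26.Main

/-!
MP_2ea9c5_co, Q2: the leading asymptotics of `MFLD_t(Δ)`, uniformly in `t`.

Lower bound: `Δ` random permutations of `[n]` between the minimal and the maximal elements of a poset
of height two; for a nested family of sets `Q_b`, the probability that a random permutation `π` has
`π b ∉ Q_b` for all `b` is at most `∏ (1 - |Q_b| / n)`; a union bound over coarse versions of all
partial functions and counting (weak duality) give `(1 - o(1)) Δ / (2 log Δ)`.

Upper bound: the mean of two dual sampling schemes. A random set of elements gets the value `0`,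
an element `y` with `|{z ≥ y}|` in the `j`-th band gets the value `1` if the sample misses
`{z ≥ y}` (with a suitable thinning); the sampling probability is `c / J_j` with
`c = (1 - δ) log Δ`.
-/

namespace Pool.Agent.Results.MP_2ea9c5_co.LocalAsymptotics

open Pool.Agent.W_MP_2ea9c5_h26

/-- `MFLD_t(Δ) = (1/2 + o(1)) Δ / log Δ` as `Δ → ∞`, uniformly in `t ≥ 2`. -/
theorem result : ∀ ε : ℝ, 0 < ε → ∃ Δ₀ : ℕ, ∀ Δ : ℕ, Δ₀ ≤ Δ → ∀ t : ℕ, 2 ≤ t →
    |MFLD t Δ * Real.log Δ / Δ - 1 / 2| ≤ ε :=
  main

end Pool.Agent.Results.MP_2ea9c5_co.LocalAsymptotics
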